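import Mathlib
import Pool.Agent.Hilo.Aligned16

/-!
# Aligned pairs at every scale in a configuration with a large product `D A`

Main theorem: if `n` points of the unit disk have `D A ≥ c n ^ (-3/2)`, then at every scale `d`
between `C (log n)³ / √n` and a constant a positive proportion of all pairs of points at distance
about `d` lies on rows: each of them has at least `κ / d` partner pairs at distance about `d` whose
lines are within `1 / (n d)` of its line.
-/

set_option autoImplicit false

namespace Pool.Agent.Results.MP_63c7f4_co.AlignedPairs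

open Hilo

/-- the distances of the points are at least `D` and the angles of triples at least `A` -/
def LowerBounds {n : ℕ} (X : Fin n → EuclideanSpace ℝ (Fin 2)) (D A : ℝ) : Prop :=
  (∀ i j : Fin n, i ≠ j → D ≤ dist (X i) (X j)) ∧
    ∀ i j k : Fin n, i ≠ j → j ≠ k → i ≠ k → A ≤ EuclideanGeometry.angle (X i) (X j) (X k)

/-- the two points of the pair `e` have distance between `a` and `b` -/
def DistIn {n : ℕ} (X : Fin n → EuclideanSpace ℝ (Fin 2)) (a b : ℝ) (e : Fin n × Fin n) : Prop :=
  a ≤ dist (X e.1) (X e.2) ∧ dist (X e.1) (X e.2) ≤ b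

/-- the line of the pair `f` is within `δ` of the line of the pair `e`: the sine of their angle and
the distance of the first point of `f` from the line of `e` are at most `δ` -/
def Aligned {n : ℕ} (X : Fin n → EuclideanSpace ℝ (Fin 2)) (δ : ℝ) (e f : Fin n × Fin n) : Prop :=
  |crs (X e.2 - X e.1) (X f.2 - X f.1)| ≤
      δ * (dist (X e.1) (X e.2) * dist (X f.1) (X f.2)) ∧
    |crs (X e.2 - X e.1) (X f.1 - X e.1)| ≤ δ * dist (X e.1) (X e.2)

open Classical in
/-- number of pairs `f` with distance in `[a, b]` whose line is within `δ` of the line of `e` -/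
noncomputable def partners {n : ℕ} (X : Fin n → EuclideanSpace ℝ (Fin 2)) (a b δ : ℝ)
    (e : Fin n × Fin n) : ℕ :=
  ((Finset.univ : Finset (Fin n × Fin n)).filter
    (fun f => DistIn X a b f ∧ Aligned X δ e f)).card

open Classical in
/-- number of pairs `e` with distance in `[a, b]` which have at least `t` partners -/
noncomputable def rich {n : ℕ} (X : Fin n → EuclideanSpace ℝ (Fin 2)) (a b δ t : ℝ) : ℕ :=
  ((Finset.univ : Finset (Fin n × Fin n)).filter
    (fun e => DistIn X a b e ∧ t ≤ partners X a b δ e)).card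

/-- **Aligned pairs at every scale.**  For every `c > 0` there are constants `κ, C > 0` and `n₀`
such that the following holds for `n ≥ n₀`.  Let `n` distinct points of the closed unit disk have
pairwise distances at least `D` and angles at least `A`, with `D A ≥ c n ^ (-3/2)`.  Then for every
`d` with `C (log n)³ / √n ≤ d ≤ κ` at least `κ n² d²` pairs `(i, j)` with
`κ d ≤ |X i - X j| ≤ d` have each at least `κ / d` partner pairs `(k, l)` with
`κ d ≤ |X k - X l| ≤ d`, such that the sine of the angle between the lines `X i X j` and `X k X l`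
is at most `1 / (n d)` and the distance of `X k` from the line `X i X j` is at most `1 / (n d)`. -/
theorem result (c : ℝ) (hc : 0 < c) : ∃ κ C : ℝ, 0 < κ ∧ 0 < C ∧ ∃ n₀ : ℕ, ∀ n : ℕ, n₀ ≤ n →
    ∀ X : Fin n → EuclideanSpace ℝ (Fin 2), Function.Injective X → (∀ i, ‖X i‖ ≤ 1) →
    ∀ D A : ℝ, 0 ≤ D → 0 ≤ A → LowerBounds X D A → c * (n : ℝ) ^ (-(3 / 2 : ℝ)) ≤ D * A →
    ∀ d : ℝ, C * Real.log n ^ 3 / √n ≤ d → d ≤ κ →
    κ * n ^ 2 * d ^ 2 ≤ rich X (κ * d) d (1 / (n * d)) (κ / d) := by
  classical
  obtain ⟨κ, C, h1, h2, n₀, h3⟩ := aligned c hc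
  refine ⟨κ, C, h1, h2, n₀, ?_⟩
  intro n hn X hX hX1 D A hD hA hDA hc' d hd hdκ
  have h4 := h3 n hn X hX hX1 D A hD hA hDA.1 hDA.2 hc' d hd hdκ
  have e1 : ∀ e : Fin n × Fin n, partners X (κ * d) d (1 / (n * d)) e =
      ((Finset.univ : Finset (Fin n × Fin n)).filter (fun f =>
        κ * d ≤ dist (X f.1) (X f.2) ∧ dist (X f.1) (X f.2) ≤ d ∧
        |crs (X e.2 - X e.1) (X f.2 - X f.1)| ≤
          1 / (n * d) * (dist (X e.1) (X e.2) * dist (X f.1) (X f.2)) ∧
        |crs (X e.2 - X e.1) (X f.1 - X e.1)| ≤ 1 / (n * d) * dist (X e.1) (X e.2))).card := by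
    intro e
    unfold partners
    apply congrArg
    ext f
    simp only [Finset.mem_filter, DistIn, Aligned, and_assoc]
  refine le_trans h4 (le_of_eq ?_)
  unfold rich
  apply congrArg
  apply congrArg
  ext e
  simp only [Finset.mem_filter, DistIn, and_assoc]
  rw [e1 e]

end Pool.Agent.Results.MP_63c7f4_co.AlignedPairs
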