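import Pool.Agent.GridLat.Final75

/-!
# Configurations containing a bent lattice

If the `n` points contain a grid of macroscopic size in which the differences of neighbours are
within `ε` times the spacing of two fixed vectors, then the minimal angle is at most
`C ε ^ (1/3) / n` and the product of minimal distance and minimal angle is at most
`C ε ^ (1/3) n ^ (-3/2)`.  Only neighbours are compared: the displacement of the grid from a lattice
may grow to `ε √n` times the spacing, so the grid may be bent at every scale.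
-/

set_option autoImplicit false

namespace Pool.Agent.Results.MP_63c7f4_co.BentGrids

/-- `X` contains a bent grid of size `r`: there are vectors `e₁`, `e₂` of length at most `K / √n`
with `|det (e₁, e₂)| ≥ κ / n`, and points `X (ψ a b)`, `|a|, |b| ≤ r √n`, such that all differences
of neighbours are within `ε / √n` of `e₁` and `e₂`, respectively. -/
def HasBentGrid {n : ℕ} (X : Fin n → EuclideanSpace ℝ (Fin 2)) (κ K r ε : ℝ) : Prop :=
  ∃ (e₁ e₂ : EuclideanSpace ℝ (Fin 2)) (ψ : ℤ → ℤ → Fin n), ‖e₁‖ ≤ K / √n ∧ ‖e₂‖ ≤ K / √n ∧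
    κ / n ≤ |e₁ 0 * e₂ 1 - e₁ 1 * e₂ 0| ∧
    ∀ a b : ℤ, |(a : ℝ)| ≤ r * √n → |(b : ℝ)| ≤ r * √n →
      (|((a + 1 : ℤ) : ℝ)| ≤ r * √n → ‖X (ψ (a + 1) b) - X (ψ a b) - e₁‖ ≤ ε / √n) ∧
      (|((b + 1 : ℤ) : ℝ)| ≤ r * √n → ‖X (ψ a (b + 1)) - X (ψ a b) - e₂‖ ≤ ε / √n)

/-- **Configurations with a bent grid.**  For all `κ, K, r > 0` there is a constant `C` such that
the following holds.  Let `C ε ≤ 1` and `C ≤ ε ^ 2 n`, and let `n` distinct points of the closed
unit disk contain a bent grid.  Then every lower bound `A` for the angles of triples satisfies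
`A ≤ C ε ^ (1/3) / n`, and every lower bound `D` for the distances satisfies
`D A ≤ C ε ^ (1/3) n ^ (-3/2)`. -/
theorem result (κ K r : ℝ) (hκ : 0 < κ) (hK : 0 < K) (hr : 0 < r) :
    ∃ C : ℝ, 0 < C ∧ ∀ ε : ℝ, 0 < ε → C * ε ≤ 1 → ∀ n : ℕ, C ≤ ε ^ 2 * n →
      ∀ X : Fin n → EuclideanSpace ℝ (Fin 2), Function.Injective X →
        (∀ i, ‖X i‖ ≤ 1) → HasBentGrid X κ K r ε →
        ∀ D A : ℝ, 0 ≤ D → 0 ≤ A →
          (∀ i j : Fin n, i ≠ j → D ≤ dist (X i) (X j)) →
          (∀ i j k : Fin n, i ≠ j → j ≠ k → i ≠ k →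
              A ≤ EuclideanGeometry.angle (X i) (X j) (X k)) →
          A ≤ C * ε ^ (1 / 3 : ℝ) / n ∧
            D * A ≤ C * ε ^ (1 / 3 : ℝ) * (n : ℝ) ^ (-(3 / 2 : ℝ)) := by
  obtain ⟨C, hC, h⟩ := GridLat.bent_bound κ K r hκ hK hr
  exact ⟨C, hC, fun ε hε hCε n hn X hX _ hg D A hD hA hd ha =>
    h ε hε hCε n hn X hX hg D A hD hA hd ha⟩

end Pool.Agent.Results.MP_63c7f4_co.BentGrids
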