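import Pool.Agent.C1Grid.Plane75

/-!
# Configurations containing a deformed lattice

If the `n` points contain a grid of macroscopic size whose difference vectors are bounded,
nondegenerate and equicontinuous at the macroscopic scale (a lattice deformed by a `C¹` map, of any
bounded distortion, up to errors which are small compared with the spacing), then the minimal angle
is at most `ε / n` and the product of minimal distance and minimal angle is at most
`ε n ^ (-3/2)`, for large `n`.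
-/

set_option autoImplicit false

namespace Pool.Agent.Results.MP_63c7f4_co.DeformedLattices

/-- The determinant of two plane vectors. -/
def det2 (u v : EuclideanSpace ℝ (Fin 2)) : ℝ := u 0 * v 1 - u 1 * v 0

/-- The indices of a grid of size `r` and spacing `1 / √n`. -/
def InBox (n : ℕ) (r : ℝ) (z : ℤ × ℤ) : Prop := |(z.1 : ℝ)| ≤ r * √n ∧ |(z.2 : ℝ)| ≤ r * √n

/-- `X` contains a deformed grid of size `r`: there are points `X (ψ z)`, `z` in the box, such that
the differences of neighbours are at most `K / √n`, the determinant of the two differences at a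
point is at least `κ / n`, and, for all `η ≥ δ`, the differences at `z` and `z'` differ by at most
`η / √n` if `|z' - z| ≤ ρ η √n`. -/
def HasDeformedGrid {n : ℕ} (X : Fin n → EuclideanSpace ℝ (Fin 2)) (ρ : ℝ → ℝ) (κ K r δ : ℝ) :
    Prop :=
  ∃ ψ : ℤ × ℤ → Fin n,
    (∀ e : ℤ × ℤ, e = (1, 0) ∨ e = (0, 1) → ∀ z, InBox n r z → InBox n r (z + e) →
      ‖X (ψ (z + e)) - X (ψ z)‖ ≤ K / √n) ∧
    (∀ z, InBox n r z → InBox n r (z + (1, 0)) → InBox n r (z + (0, 1)) →
      κ / n ≤ |det2 (X (ψ (z + (1, 0))) - X (ψ z)) (X (ψ (z + (0, 1))) - X (ψ z))|) ∧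
    (∀ e : ℤ × ℤ, e = (1, 0) ∨ e = (0, 1) → ∀ η, δ ≤ η → ∀ z z', InBox n r z →
      InBox n r (z + e) → InBox n r z' → InBox n r (z' + e) →
      |((z'.1 - z.1 : ℤ) : ℝ)| ≤ ρ η * √n → |((z'.2 - z.2 : ℤ) : ℝ)| ≤ ρ η * √n →
      ‖(X (ψ (z' + e)) - X (ψ z')) - (X (ψ (z + e)) - X (ψ z))‖ ≤ η / √n)

/-- **Configurations with a deformed lattice.**  For every modulus `ρ` and all `κ, K, r, ε > 0`
there are `δ > 0` and `n₀` such that the following holds for `n ≥ n₀`.  Let `n` distinct points of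
the closed unit disk contain a deformed grid with these data.  Then every lower bound `A` for the
angles of triples satisfies `A ≤ ε / n`, and every lower bound `D` for the distances satisfies
`D A ≤ ε n ^ (-3/2)`. -/
theorem result (ρ : ℝ → ℝ) (hρ : ∀ η, 0 < η → 0 < ρ η) (κ K r ε : ℝ) (hκ : 0 < κ)
    (hK : 0 < K) (hr : 0 < r) (hε : 0 < ε) :
    ∃ δ : ℝ, 0 < δ ∧ ∃ n₀ : ℕ, ∀ n : ℕ, n₀ ≤ n →
      ∀ X : Fin n → EuclideanSpace ℝ (Fin 2), Function.Injective X → (∀ i, ‖X i‖ ≤ 1) →
        HasDeformedGrid X ρ κ K r δ →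
        ∀ D A : ℝ, 0 ≤ D → 0 ≤ A →
          (∀ i j : Fin n, i ≠ j → D ≤ dist (X i) (X j)) →
          (∀ i j k : Fin n, i ≠ j → j ≠ k → i ≠ k →
              A ≤ EuclideanGeometry.angle (X i) (X j) (X k)) →
          A ≤ ε / n ∧ D * A ≤ ε * (n : ℝ) ^ (-(3 / 2 : ℝ)) := by
  obtain ⟨δ, hδ, n₀, h⟩ := C1Grid.smooth_bound ρ hρ κ K r ε hκ hK hr hε
  exact ⟨δ, hδ, n₀, fun n hn X hX _ hg D A hD hA hd ha => h n hn X hX hg D A hD hA hd ha⟩

end Pool.Agent.Results.MP_63c7f4_co.DeformedLattices
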