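import Mathlib
import Pool.Agent.Grain.Main

/-!
# Configurations containing a perturbed piece of a lattice

Main theorem: if the `n` points contain a piece of macroscopic size of a lattice, each point of it
up to an arbitrary error of at most `ε` times the spacing, then the minimal angle is at most
`C √ε / n` and the product of minimal distance and minimal angle at most `C √ε n ^ (-3/2)`.
-/

set_option autoImplicit false

namespace Pool.Agent.Results.MP_63c7f4_co.LatticeGrains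

open Pool.Agent.Grain

/-- The numerical part: all thresholds follow from `C₀ ε ≤ 1` and `C₀ ≤ ε n`. -/
theorem angle_bound {κ K r : ℝ} (hκ : 0 < κ) (hK : 0 < K) (hr : 0 < r) {C ε : ℝ}
    (hC1 : 238144 * K / κ ≤ C) (hC2 : 72100 ^ 2 * κ / (3721 * r ^ 2 * K) ≤ C)
    (hC3 : (14420 * K ^ 2 / κ) ^ 2 * κ / (3721 * r ^ 2 * K) ≤ C)
    (hC4 : 48800 * √(K / κ) * K ^ 2 / (κ * r ^ 2) ≤ C) (hC0 : 1 ≤ C)
    (hε : 0 < ε) (hCε : C * ε ≤ 1) {n : ℕ} (hn : C ≤ ε * n)
    (X : Fin n → EuclideanSpace ℝ (Fin 2)) (hgr : HasGrain X κ K r ε)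
    {A : ℝ} (hA : ∀ i j k : Fin n, i ≠ j → j ≠ k → i ≠ k →
      A ≤ EuclideanGeometry.angle (X i) (X j) (X k)) :
    A ≤ C * √ε / n := by
  have hε1 : ε ≤ 1 := by nlinarith
  have hn1 : 1 ≤ n := by
    by_contra h
    have h0 : n = 0 := by omega
    rw [h0] at hn
    norm_num at hn
    linarith
  have hnr : (1 : ℝ) ≤ n := by exact_mod_cast hn1
  have hn0 : (0 : ℝ) < n := by linarith
  by_contra hcon
  push Not at hcon
  have hsε : 0 < √ε := Real.sqrt_pos.2 hε
  have hA0 : 0 < A := lt_of_le_of_lt (by positivity) hcon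
  obtain ⟨e₁, e₂, ψ, u, v, h1, h2, h3, hf⟩ := exists_frame hn1 hκ hK hr hε hgr
  set e : ℝ := ε * K / κ with he
  have he0 : 0 < e := by positivity
  set α : ℝ := 61 * √e with hα
  have hse : 0 < √e := Real.sqrt_pos.2 he0
  have hα0 : 0 < α := by positivity
  have hαsq : α * α = 3721 * e := by
    rw [hα]
    have := Real.mul_self_sqrt he0.le
    calc 61 * √e * (61 * √e) = 3721 * (√e * √e) := by ring
      _ = 3721 * e := by rw [this]
  have he1 : 238144 * e ≤ 1 := by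
    calc 238144 * e = (238144 * K / κ) * ε := by rw [he]; ring
      _ ≤ C * ε := by gcongr
      _ ≤ 1 := hCε
  have hα8 : α ≤ 1 / 8 := by
    have : √e ≤ 1 / 488 := by
      rw [Real.sqrt_le_left (by norm_num)]
      norm_num
      linarith
    rw [hα]
    linarith
  set l : ℤ := ⌈360 / α⌉ + 1 with hl
  have hl1 : 360 / α + 1 ≤ l := by
    rw [hl]; push_cast
    have := Int.le_ceil (360 / α)
    linarith
  have hl2 : (l : ℝ) ≤ 360 / α + 2 := by
    rw [hl]; push_cast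
    have := Int.ceil_lt_add_one (360 / α)
    linarith
  have hdiv : 0 < 360 / α := by positivity
  have hdivα : 360 / α * α = 360 := div_mul_cancel₀ _ hα0.ne'
  set L : ℤ := 2 * l with hL
  have hLr : (L : ℝ) = 2 * l := by rw [hL]; push_cast; ring
  have hLα : 720 < (L : ℝ) * α := by
    rw [hLr]
    have : (360 / α + 1) * α ≤ l * α := by gcongr
    nlinarith
  have hLα2 : (L : ℝ) * α ≤ 720 + 4 * α := by
    rw [hLr]
    have : (l : ℝ) * α ≤ (360 / α + 2) * α := by gcongr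
    nlinarith
  have hL2 : 2 ≤ L := by
    have : (2 : ℝ) ≤ L := by rw [hLr]; linarith
    exact_mod_cast this
  have he2 : e * (5 * L + 7) ≤ α := by
    refine le_of_mul_le_mul_right ?_ hα0
    calc e * (5 * L + 7) * α = e * (5 * (L * α) + 7 * α) := by ring
      _ ≤ e * 3721 := by gcongr; linarith
      _ = α * α := by rw [hαsq]; ring
  set N : ℝ := r * √n with hN
  have hsn : 0 < √(n : ℝ) := Real.sqrt_pos.2 hn0
  have hN0 : 0 < N := by positivity
  have hNN : N ^ 2 = r ^ 2 * n := by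
    rw [hN, mul_pow, Real.sq_sqrt hn0.le]
  have hthr : ∀ c : ℝ, 0 < c → c ^ 2 * κ / (3721 * r ^ 2 * K) ≤ C → c ≤ N * α := by
    intro c hc hcC
    by_contra hlt
    push Not at hlt
    have hsq : (N * α) ^ 2 < c ^ 2 := by
      apply pow_lt_pow_left₀ hlt (by positivity) two_ne_zero
    have h5 : (N * α) ^ 2 = (3721 * r ^ 2 * K / κ) * (ε * n) := by
      calc (N * α) ^ 2 = N ^ 2 * (α * α) := by ring
        _ = (3721 * r ^ 2 * K / κ) * (ε * n) := by rw [hNN, hαsq, he]; ring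
    have h6 : c ^ 2 ≤ (N * α) ^ 2 := by
      rw [h5]
      calc c ^ 2 = (3721 * r ^ 2 * K / κ) * (c ^ 2 * κ / (3721 * r ^ 2 * K)) := by field_simp
        _ ≤ (3721 * r ^ 2 * K / κ) * (ε * n) := by
            gcongr
            linarith
    linarith
  have ht1 : 72100 ≤ N * α := hthr 72100 (by norm_num) hC2
  have ht2 : 14420 * K ^ 2 / κ ≤ N * α := hthr _ (by positivity) hC3
  have hN1 : 100 * (L : ℝ) ≤ N := by
    refine le_of_mul_le_mul_right ?_ hα0
    calc 100 * (L : ℝ) * α = 100 * (L * α) := by ring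
      _ ≤ 72100 := by linarith
      _ ≤ N * α := ht1
  have hN2 : 20 * K ^ 2 * (L + 3) ≤ κ * N := by
    refine le_of_mul_le_mul_right ?_ hα0
    calc 20 * K ^ 2 * (L + 3) * α = 20 * K ^ 2 * (L * α + 3 * α) := by ring
      _ ≤ 20 * K ^ 2 * 721 := by gcongr; linarith
      _ = κ * (14420 * K ^ 2 / κ) := by field_simp; ring
      _ ≤ κ * (N * α) := by gcongr
      _ = κ * N * α := by ring
  have hAα : α * (200 * Real.pi * K ^ 2) < A * (κ * N ^ 2) := by
    have hpi := Real.pi_lt_four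
    have hpi0 := Real.pi_pos
    have h5 : α = 61 * √(K / κ) * √ε := by
      rw [hα, he, show ε * K / κ = (K / κ) * ε by ring, Real.sqrt_mul (by positivity)]
      ring
    calc α * (200 * Real.pi * K ^ 2) ≤ α * (200 * 4 * K ^ 2) := by gcongr
      _ = (48800 * √(K / κ) * K ^ 2 / (κ * r ^ 2)) * (√ε * (κ * r ^ 2)) := by
          rw [h5]; field_simp; ring
      _ ≤ C * (√ε * (κ * r ^ 2)) := by gcongr
      _ = (C * √ε / n) * (κ * (r ^ 2 * n)) := by field_simp
      _ < A * (κ * (r ^ 2 * n)) := by gcongr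
      _ = A * (κ * N ^ 2) := by rw [hNN]
  have hbad : Bad u v N e α L := bad_of_angles hn1 hf hκ hK h1 h2 h3 hL2 hN1 hN2 he0 he2 hα8
    hA0.le hA hAα
  have := pigeon hbad hL hα0
  linarith

/-- **Configurations with a perturbed lattice grain.**  For all `κ, K, r > 0` there is a constant
`C` such that the following holds.  Let `C ε ≤ 1` and `C ≤ ε n`, and let `n` distinct points of
the closed unit disk contain an `ε`-grain: there are `z` and vectors `e₁, e₂` of length at most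
`K / √n` with `|det (e₁, e₂)| ≥ κ / n` such that each of the lattice points `z + a e₁ + b e₂`
(`|a|, |b| ≤ r √n`) is within `ε / √n` of one of the `n` points.  Then every lower bound `A` for
the angles of triples satisfies `A ≤ C √ε / n`, and every lower bound `D` for the distances
satisfies `D A ≤ C √ε n ^ (-3/2)`. -/
theorem result (κ K r : ℝ) (hκ : 0 < κ) (hK : 0 < K) (hr : 0 < r) :
    ∃ C : ℝ, 0 < C ∧ ∀ ε : ℝ, 0 < ε → C * ε ≤ 1 → ∀ n : ℕ, C ≤ ε * n →
      ∀ X : Fin n → EuclideanSpace ℝ (Fin 2), Function.Injective X →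
        (∀ i, ‖X i‖ ≤ 1) → HasGrain X κ K r ε →
        ∀ D A : ℝ, 0 ≤ D → 0 ≤ A →
          (∀ i j : Fin n, i ≠ j → D ≤ dist (X i) (X j)) →
          (∀ i j k : Fin n, i ≠ j → j ≠ k → i ≠ k →
              A ≤ EuclideanGeometry.angle (X i) (X j) (X k)) →
          A ≤ C * √ε / n ∧ D * A ≤ C * √ε * (n : ℝ) ^ (-(3 / 2 : ℝ)) := by
  set c1 := 238144 * K / κ with hc1
  set c2 := 72100 ^ 2 * κ / (3721 * r ^ 2 * K) with hc2
  set c3 := (14420 * K ^ 2 / κ) ^ 2 * κ / (3721 * r ^ 2 * K) with hc3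
  set c4 := 48800 * √(K / κ) * K ^ 2 / (κ * r ^ 2) with hc4
  have p1 : 0 ≤ c1 := by positivity
  have p2 : 0 ≤ c2 := by positivity
  have p3 : 0 ≤ c3 := by positivity
  have p4 : 0 ≤ c4 := by positivity
  set C₀ : ℝ := 1 + c1 + c2 + c3 + c4 with hC₀
  have hC₀1 : 1 ≤ C₀ := by linarith
  refine ⟨C₀ * (1 + 2 * K), by positivity, ?_⟩
  intro ε hε hCε n hn X hinj hX hgr D A hD0 hA0 hD hA
  have hC₀C : C₀ ≤ C₀ * (1 + 2 * K) := by nlinarith
  have hCε' : C₀ * ε ≤ 1 := le_trans (by gcongr) hCε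
  have hn' : C₀ ≤ ε * n := le_trans hC₀C hn
  have hAb : A ≤ C₀ * √ε / n := angle_bound hκ hK hr (by linarith) (by linarith) (by linarith)
    (by linarith) hC₀1 hε hCε' hn' X hgr hA
  have hε1 : ε ≤ 1 := by nlinarith
  have hn1 : 1 ≤ n := by
    by_contra h
    have h0 : n = 0 := by omega
    rw [h0] at hn'
    norm_num at hn'
    linarith
  have hnr : (1 : ℝ) ≤ n := by exact_mod_cast hn1
  have hn0 : (0 : ℝ) < n := by linarith
  have hsε : 0 < √ε := Real.sqrt_pos.2 hε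
  have hsn : 0 < √(n : ℝ) := Real.sqrt_pos.2 hn0
  refine ⟨le_trans hAb (by gcongr), ?_⟩
  -- the distance bound
  obtain ⟨e₁, e₂, ψ, u, v, h1, h2, h3, hf⟩ := exists_frame hn1 hκ hK hr hε hgr
  set e : ℝ := ε * K / κ with he
  have he0 : 0 < e := by positivity
  have he1 : 238144 * e ≤ 1 := by
    calc 238144 * e = c1 * ε := by rw [he, hc1]; ring
      _ ≤ C₀ * ε := by gcongr; linarith
      _ ≤ 1 := hCε'
  have he4 : e ≤ 1 / 4 := by linarith
  have hN1 : 1 ≤ r * √n := by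
    have h5 : 1 ≤ (r * √n) ^ 2 := by
      rw [mul_pow, Real.sq_sqrt hn0.le]
      -- `c2 ≤ ε n` and `c1 ε ≤ 1`
      have h6 : c1 * c2 ≤ n := by
        calc c1 * c2 ≤ c1 * (ε * n) := by gcongr; linarith
          _ = (c1 * ε) * n := by ring
          _ ≤ 1 * n := by
              gcongr
              exact le_trans (by gcongr; linarith) hCε'
          _ = n := one_mul _
      have h7 : c1 * c2 = 238144 * 72100 ^ 2 / 3721 / r ^ 2 := by
        rw [hc1, hc2]; field_simp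
      rw [h7, div_le_iff₀ (by positivity)] at h6
      nlinarith
    by_contra hlt
    push Not at hlt
    have : (r * √n) ^ 2 < 1 ^ 2 := pow_lt_pow_left₀ hlt (by positivity) two_ne_zero
    linarith
  have b0 : |((0 : ℤ) : ℝ)| ≤ r * √n := by
    rw [Int.cast_zero, abs_zero]; positivity
  have b1 : |((1 : ℤ) : ℝ)| ≤ r * √n := by
    rw [Int.cast_one, abs_one]; exact hN1
  have hΔ : 0 < |cr e₁ e₂| := lt_of_lt_of_le (by positivity) h3
  have hne : ψ 0 0 ≠ ψ 1 0 := hf.ne h1 h2 hΔ he4 b0 b0 b1 b0 (Or.inl (by norm_num))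
  have hDle : D ≤ 2 * K / √n := by
    have h5 := hD _ _ hne
    rw [dist_comm, dist_eq_norm, hf.hX 0 0 1 0] at h5
    have hu0 := hf.hu 0 0 b0 b0
    have hv0 := hf.hv 0 0 b0 b0
    have hu1 := hf.hu 1 0 b1 b0
    have hv1 := hf.hv 1 0 b1 b0
    have h6 : |(((1 : ℤ) : ℝ) + u 1 0) - (((0 : ℤ) : ℝ) + u 0 0)| ≤ 1 + 2 * e := by
      have : (((1 : ℤ) : ℝ) + u 1 0) - (((0 : ℤ) : ℝ) + u 0 0) = 1 + (u 1 0 - u 0 0) := by
        push_cast; ring
      rw [this]
      calc |1 + (u 1 0 - u 0 0)| ≤ |(1 : ℝ)| + |u 1 0 - u 0 0| := abs_add_le _ _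
        _ ≤ 1 + (|u 1 0| + |u 0 0|) := by rw [abs_one]; gcongr; exact abs_sub _ _
        _ ≤ 1 + 2 * e := by linarith
    have h7 : |(((0 : ℤ) : ℝ) + v 1 0) - (((0 : ℤ) : ℝ) + v 0 0)| ≤ 2 * e := by
      have : (((0 : ℤ) : ℝ) + v 1 0) - (((0 : ℤ) : ℝ) + v 0 0) = v 1 0 - v 0 0 := by
        push_cast; ring
      rw [this]
      calc |v 1 0 - v 0 0| ≤ |v 1 0| + |v 0 0| := abs_sub _ _
        _ ≤ 2 * e := by linarith
    refine le_trans h5 ?_
    calc _ ≤ ‖((((1 : ℤ) : ℝ) + u 1 0) - (((0 : ℤ) : ℝ) + u 0 0)) • e₁‖ +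
          ‖((((0 : ℤ) : ℝ) + v 1 0) - (((0 : ℤ) : ℝ) + v 0 0)) • e₂‖ := norm_add_le _ _
      _ = |(((1 : ℤ) : ℝ) + u 1 0) - (((0 : ℤ) : ℝ) + u 0 0)| * ‖e₁‖ +
          |(((0 : ℤ) : ℝ) + v 1 0) - (((0 : ℤ) : ℝ) + v 0 0)| * ‖e₂‖ := by
            rw [norm_smul, norm_smul, Real.norm_eq_abs, Real.norm_eq_abs]
      _ ≤ (1 + 2 * e) * (K / √n) + (2 * e) * (K / √n) := by gcongr
      _ = (1 + 4 * e) * (K / √n) := by ring
      _ ≤ 2 * (K / √n) := by gcongr; linarith
      _ = 2 * K / √n := by ring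
  have hpow : (n : ℝ) ^ (-(3 / 2 : ℝ)) = 1 / (√n * n) := by
    rw [Real.rpow_neg hn0.le, one_div]
    congr 1
    rw [show (3 / 2 : ℝ) = 1 / 2 + 1 by norm_num, Real.rpow_add hn0, Real.rpow_one,
      ← Real.sqrt_eq_rpow]
  rw [hpow]
  calc D * A ≤ (2 * K / √n) * (C₀ * √ε / n) := by gcongr
    _ = (C₀ * (2 * K)) * √ε * (1 / (√n * n)) := by field_simp
    _ ≤ (C₀ * (1 + 2 * K)) * √ε * (1 / (√n * n)) := by gcongr; linarith

end Pool.Agent.Results.MP_63c7f4_co.LatticeGrains
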